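import Mathlib
import Pool.Prelude.Def_F_53a7d5e4
import Pool.Agent.Run7.h880.Bdd

/-!
# MP_f9dba0_nt: gaps whose prime powers lie in a window of bounded length (e.g. bounded prime gaps)

Let `H` be a natural number and `ε > 0`. For all but finitely many `k`: if any two prime powers strictly
between the consecutive primes `p_k` and `p_{k+1}` differ by at most `H`, in particular if
`p_{k+1} - p_k ≤ H`, then

  `lcm (1, ..., p_{k+1} - 1) ≤ p_k ^ (1 / 2 + ε) * lcm (1, ..., p_k)`.

Proof. The quotient of the two least common multiples is at most the product of the primes below the at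
most `H + 1` prime powers of the gap. All of them are proper powers, so that each of the primes is at most
`(2 p_k) ^ (1 / 2)`, and those whose exponent exceeds `B` are at most `(2 p_k) ^ (1 / B)`. For large `k` at
most one of the exponents is at most `B`: the equations `x ^ a + d = y ^ b`, `2 ≤ a, b ≤ B`,
`1 ≤ d ≤ H`, have finitely many solutions. This is elementary for `a = b = 2` and an instance of Siegel's
theorem on integral points otherwise: for `x ^ m - d = y ^ ℓ`, `ℓ ≥ 3`, and two roots `β₁`, `β₂` of
`X ^ m - d` the orders of `x - β₁` and `x - β₂` are divisible by `ℓ` at almost all places, so that in a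
number field which does not depend on the solution `x - β₁ = y₁ ^ ℓ` and `x - β₂ = y₂ ^ ℓ`, and
`y₁ - y₂`, `y₁ - ζ y₂`, `y₁ - ζ ^ 2 y₂` are `S`-units with a linear relation. The finiteness of the number
of solutions of the `S`-unit equation is taken from the files of the pool.
-/

set_option autoImplicit false

namespace Pool.Agent.Results.MP_f9dba0_nt.BoundedWindows

open Nd8d74632

/-- For all but finitely many `k`: if any two prime powers strictly between the consecutive primes `p_k`
and `p_{k+1}` differ by at most `H` then
`lcm (1, ..., p_{k+1} - 1) ≤ p_k ^ (1 / 2 + ε) * lcm (1, ..., p_k)`. -/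
theorem result (H : ℕ) (ε : ℝ) (hε : 0 < ε) : ∀ᶠ k : ℕ in Filter.atTop,
    (∀ m n : ℕ, Nat.nth Nat.Prime k < m → m ≤ n → n < Nat.nth Nat.Prime (k + 1) →
      IsPrimePow m → IsPrimePow n → n ≤ m + H) →
    (lcm_upto (Nat.nth Nat.Prime (k + 1) - 1) : ℝ) ≤
      (Nat.nth Nat.Prime k : ℝ) ^ (1 / 2 + ε) * (lcm_upto (Nat.nth Nat.Prime k) : ℝ) :=
  Pool.Agent.Run7.h880.bounded_window H ε hε

end Pool.Agent.Results.MP_f9dba0_nt.BoundedWindows
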