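import Mathlib
import Pool.Prelude.Def_F_53a7d5e4
import Pool.Agent.Run7.h880.Fail

/-!
# MP_f9dba0_nt: the inequality fails very rarely in short gaps

Let `R k = lcm (1, ..., p_{k+1} - 1) / lcm (1, ..., p_k)`; the question is whether `R k < p_k` for all
`k`. The theorem below bounds, for all `X, H ≥ 2` and `m, r ≥ 1`, the number of the `k` with `p_k ≤ X`
for which any two prime powers between `p_k` and `p_{k+1}` differ by at most `H` (for example
`p_{k+1} - p_k ≤ H`) and `R k` is at least `p_k ^ (1 / r)` and not a prime. The bound is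
`X ^ (1 / 2 ^ m) * (r m H (log₂ X + 2)) ^ (40 r m)`.

For `r = 1` these `k` are exactly the ones with `R k ≥ p_k`, i.e. those for which the inequality of the
question is false (if `R k` is a prime `q`, then `q ^ 2 ≤ p_{k+1} ≤ 2 p_k`, so `R k < p_k`). With
`m = log log X` we see that the inequality fails for at most `(H log X) ^ (C log log X)` of the `k` with
`p_k ≤ X` and `p_{k+1} - p_k ≤ H`, and for `H = X ^ η` for at most `X ^ (C η log (1 / η) + o(1))` of them.

Proof. Let `T = 2 r m`. If the gap contains a power `q ^ e` of a prime `q` with `e ≤ T`, then it contains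
another prime power at distance `d ≤ H`, and the number of these gaps is bounded with the ideal classes
and units of `ℚ(d ^ (1 / a))`, `a ≤ T` prime. Otherwise all the prime powers `q_i ^ b_i` of the gap have
`b_i > T`, there are at least `m` of them, since the product of the `q_i` is large, and their exponents
are pairwise coprime, since they are close together. Let `t` be the first of them, `d_i = q_i ^ b_i - t`.
For given `b_i, d_i` we count the `t`: for `2 ^ m` of them in a short interval the determinant of the
`2 ^ m` products of the numbers `q_i = (t + d_i) ^ (1 / b_i)` at these `t` is an integer and it is smaller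
than `1`, hence it is `0`; so there is a linear relation between the products, which is not
identically `0` and has at most `m b_1 ⋯ b_m` zeros. The number of the short intervals is at most
`26 X ^ (1 / 2 ^ m) (log₂ X + 2)`.
-/

set_option autoImplicit false

namespace Pool.Agent.Results.MP_f9dba0_nt.FewFailures

open Nd8d74632

/-- the `k`-th prime, with `p 0 = 2` -/
noncomputable def p (k : ℕ) : ℕ := Nat.nth Nat.Prime k

/-- `R k = lcm (1, ..., p_{k+1} - 1) / lcm (1, ..., p_k)`, an integer -/
noncomputable def R (k : ℕ) : ℕ := lcm_upto (p (k + 1) - 1) / lcm_upto (p k)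

/-- any two prime powers strictly between `p_k` and `p_{k+1}` differ by at most `H` -/
def Window (H k : ℕ) : Prop :=
  ∀ m n : ℕ, p k < m → m ≤ n → n < p (k + 1) → IsPrimePow m → IsPrimePow n → n ≤ m + H

/-- For all `X, H ≥ 2` and `m, r ≥ 1`, at most `X ^ (1 / 2 ^ m) * (r m H (log₂ X + 2)) ^ (40 r m)` of the
`k` with `p_k ≤ X` for which the prime powers between `p_k` and `p_{k+1}` differ by at most `H` have the
property that `(R k) ^ r ≥ p_k` and `R k` is not a prime. -/
theorem result (X H m r : ℕ) (hX : 2 ≤ X) (hH : 2 ≤ H) (hm : 1 ≤ m) (hr : 1 ≤ r) :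
    {k : ℕ | p k ≤ X ∧ Window H k ∧ p k ≤ R k ^ r ∧ ¬ (R k).Prime}.Finite ∧
    ({k : ℕ | p k ≤ X ∧ Window H k ∧ p k ≤ R k ^ r ∧ ¬ (R k).Prime}.ncard : ℝ) ≤
      (X : ℝ) ^ ((1 : ℝ) / 2 ^ m) * ((r * m * H * (Nat.log 2 X + 2) : ℕ) : ℝ) ^ (40 * r * m) :=
  Pool.Agent.Run7.h880.fail_count hX hH hm hr

end Pool.Agent.Results.MP_f9dba0_nt.FewFailures
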