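import Mathlib
import Pool.Prelude.Def_F_53a7d5e4
import Pool.Agent.Run7.h880.Small

/-!
# MP_f9dba0_nt: the prime factors of `lcm (1, ..., p_{k+1} - 1) / lcm (1, ..., p_k)`

There is a constant `c > 0` such that for all large `k`, without any hypothesis on the gap, two different
primes `q`, `r` which divide the quotient `lcm (1, ..., p_{k+1} - 1) / lcm (1, ..., p_k)` satisfy

  `log q * log r ≥ c * log p_k / (log log p_k) ^ 2`.

In particular the quotient has at most one prime factor below
`exp (√c * √(log p_k) / log log p_k)`, so that, for example, there is a prime between any two large powers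
`q ^ a`, `r ^ b` of primes `q ≠ r` of this size; and if a gap contains a power of `2` then all the other
prime factors of the quotient are at least `exp (c' * log p_k / (log log p_k) ^ 2)`.

Proof. The primes come from prime powers `q ^ a`, `r ^ b` of the gap. By Hoheisel's theorem (from the files
of the pool) the length of the gap is at most `2 p_k ^ (1 - δ)`, so `|b log r - a log q|` is at most
`2 p_k ^ (-δ)`. The greatest common divisor of `a` and `b` is bounded, and an explicit lower bound for
linear forms in two logarithms (from the files of the pool, by interpolation determinants) applies.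
-/

set_option autoImplicit false

namespace Pool.Agent.Results.MP_f9dba0_nt.PrimeFactors

open Nd8d74632

/-- There is `c > 0` such that for all large `k` any two different primes `q`, `r` which divide
`lcm (1, ..., p_{k+1} - 1) / lcm (1, ..., p_k)` satisfy
`c * log p_k ≤ log q * log r * (log log p_k) ^ 2`. -/
theorem result : ∃ c : ℝ, 0 < c ∧ ∀ᶠ k : ℕ in Filter.atTop, ∀ q r : ℕ,
    q.Prime → r.Prime → q ≠ r →
    q ∣ lcm_upto (Nat.nth Nat.Prime (k + 1) - 1) / lcm_upto (Nat.nth Nat.Prime k) →
    r ∣ lcm_upto (Nat.nth Nat.Prime (k + 1) - 1) / lcm_upto (Nat.nth Nat.Prime k) →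
    c * Real.log (Nat.nth Nat.Prime k) ≤
      Real.log q * Real.log r * Real.log (Real.log (Nat.nth Nat.Prime k)) ^ 2 :=
  Pool.Agent.Run7.h880.small_primes

end Pool.Agent.Results.MP_f9dba0_nt.PrimeFactors
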