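import Mathlib
import Pool.Prelude.Def_F_53a7d5e4
import Pool.Agent.Run7.h880.Mid3

/-!
# MP_f9dba0_nt: prime gaps up to `4 √p_k`

Let `R k = lcm (1, ..., p_{k+1} - 1) / lcm (1, ..., p_k)`; the question is whether `R k < p_k` for all
`k`. The theorem below says that, among the `k` with `p_k ≤ X` for which any two prime powers between
`p_k` and `p_{k+1}` differ by at most `4 √p_k` (for example `p_{k+1} - p_k ≤ 4 √p_k`), all but
`O(X ^ (7 / 45 + ε))` satisfy `R k ≤ (2 p_k) ^ (5 / 6)`, and `R k` has at most two prime factors. If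
`R k ≤ (2 p_k) ^ (5 / 6)` and `p_k > 32`, then `R k < p_k`, so the inequality of the question is true.

Proof. We may leave out the `k` for which there is a power of `2` in the gap, or a power `q ^ e` with
`e ≥ 7`; there are `O(X ^ (1 / 7) log X)` of them. Two odd `g`-th powers above `p_k`, `g ≥ 2`, differ by
more than `4 √p_k`; hence the exponents of the prime powers of the gap are pairwise coprime. If there are
at most two of them, then `R k ≤ (2 p_k) ^ (1 / 2 + 1 / 3)`, and otherwise a cube `y ^ 3` and a fifth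
power `z ^ 5` lie in the gap, with `|y ^ 3 - z ^ 5| ≤ 4 z ^ (5 / 2)`. The number of the `z ≤ Z` with this
property is `O(Z ^ (7 / 9 + ε))`: in an interval of length `c ^ (2 / 9)` beginning at `c` all the points
`(z, y)` are on one parabola, by a determinant of order `4`, and a parabola has few of these points, as
the third derivative of `z ^ (5 / 3)` is not `0`.
-/

set_option autoImplicit false

namespace Pool.Agent.Results.MP_f9dba0_nt.SqrtGaps

open Nd8d74632

/-- the `k`-th prime, with `p 0 = 2` -/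
noncomputable def p (k : ℕ) : ℕ := Nat.nth Nat.Prime k

/-- `R k = lcm (1, ..., p_{k+1} - 1) / lcm (1, ..., p_k)`, an integer -/
noncomputable def R (k : ℕ) : ℕ := lcm_upto (p (k + 1) - 1) / lcm_upto (p k)

/-- any two prime powers strictly between `p_k` and `p_{k+1}` differ by at most `4 √p_k` -/
def Short (k : ℕ) : Prop :=
  ∀ m n : ℕ, p k < m → m ≤ n → n < p (k + 1) → IsPrimePow m → IsPrimePow n →
    (n - m) ^ 2 ≤ 16 * p k

/-- All but `O(X ^ (7 / 45 + ε))` of the `k` with `p_k ≤ X` for which the prime powers between `p_k` and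
`p_{k+1}` differ by at most `4 √p_k` have the property that `R k` has at most two prime factors and
`R k ≤ (2 p_k) ^ (5 / 6)`. -/
theorem result (ε : ℝ) (hε : 0 < ε) : ∃ C : ℝ, 0 < C ∧ ∀ X : ℕ, 1 ≤ X →
    {k : ℕ | p k ≤ X ∧ Short k ∧
      (3 ≤ (R k).primeFactors.card ∨ (2 * p k) ^ 5 < R k ^ 6)}.Finite ∧
    ({k : ℕ | p k ≤ X ∧ Short k ∧
      (3 ≤ (R k).primeFactors.card ∨ (2 * p k) ^ 5 < R k ^ 6)}.ncard : ℝ) ≤
      C * (X : ℝ) ^ ((7 : ℝ) / 45 + ε) :=
  Pool.Agent.Run7.h880.three_count hε

end Pool.Agent.Results.MP_f9dba0_nt.SqrtGaps
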